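import Pool.Agent.Q40.SP.Fin

/-!
# The number of spanning steps
-/

set_option autoImplicit false
set_option linter.unusedVariables false
set_option linter.unusedSectionVars false

universe u v

namespace Pool.Agent.Q40.SP

open MvPolynomial IsLocalRing Pool.Agent.Q40.RP Pool.Agent.TH188.QS Pool.Agent.W418.LU2

section cnt

variable {K : Type u} [Field K] {V : ValuationSubring K} {Q : ℕ → Subring K}
  [hloc : ∀ l, IsLocalRing (Q l)] {z : ℕ → K}

lemma ncard_succ (G : ℕ → Prop) (l : ℕ) : {i | i < l + 1 ∧ G i}.ncard ≤ {i | i < l ∧ G i}.ncard + 1 ∧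
    (¬ G l → {i | i < l + 1 ∧ G i}.ncard = {i | i < l ∧ G i}.ncard) := by
  have hfin : {i | i < l ∧ G i}.Finite := (Set.finite_lt_nat l).subset fun i hi => hi.1
  constructor
  · have h1 : {i | i < l + 1 ∧ G i} ⊆ insert l {i | i < l ∧ G i} := by
      rintro i ⟨h1, h2⟩
      rcases Nat.lt_succ_iff_lt_or_eq.1 h1 with h | h
      · exact Or.inr ⟨h, h2⟩
      · exact Or.inl h
    exact (Set.ncard_le_ncard h1 (hfin.insert l)).trans (Set.ncard_insert_le _ _)
  · intro hG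
    congr 1
    ext i
    constructor
    · rintro ⟨h1, h2⟩
      rcases Nat.lt_succ_iff_lt_or_eq.1 h1 with h | h
      · exact ⟨h, h2⟩
      · exact absurd (h ▸ h2) hG
    · rintro ⟨h1, h2⟩
      exact ⟨Nat.lt_succ_of_lt h1, h2⟩

/-- The order decreases at every spanning step. -/
theorem or_count (hz : ∀ l, Zp V (Q l) (Q (l + 1)) (z l)) {G : ℕ → Prop}
    (hG : ∀ i, G i → PerfectField (ResidueField (Q i)) ∧ Spn V (Q i)) {S : Set K} {m : ℕ}
    (h : Or Q 0 S m) (l : ℕ) : ∃ M ∈ Mn z l, ∃ m', Or Q l (dv S M) m' ∧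
      (m' = 0 ∨ m' + {i | i < l ∧ G i}.ncard ≤ m) := by
  induction l with
  | zero =>
    refine ⟨1, Submonoid.one_mem _, m, by rwa [dv_one], Or.inr ?_⟩
    have h1 : {i | i < 0 ∧ G i} = (∅ : Set ℕ) := by
      ext i
      simp
    rw [h1, Set.ncard_empty, add_zero]
  | succ l ih =>
    obtain ⟨M, hM, m', h1, h2⟩ := ih
    obtain ⟨m'', h3, h4, h5⟩ := or_step hz h1
    refine ⟨M * z l ^ m', Submonoid.mul_mem _ (mn_mono (Nat.le_succ l) hM)
      (Submonoid.pow_mem _ (z_mem l) m'), m'', by rwa [dv_dv] at h4, ?_⟩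
    obtain ⟨h6, h7⟩ := ncard_succ G l
    rcases h2 with h2 | h2
    · left
      omega
    · by_cases hg : G l
      · by_cases hm : 1 ≤ m'
        · right
          have := h5 (hG l hg).1 (hG l hg).2 hm
          omega
        · left
          omega
      · right
        rw [h7 hg]
        omega

end cnt

section main

variable {K : Type u} [Field K] {V : ValuationSubring K} {Q : ℕ → Subring K}

/-- The main theorem for finitely many steps. -/
theorem main_fin (hreg0 : IsRegularLocalRing (Q 0)) (hne : ¬ IsField (Q 0))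
    (hQ0 : Q 0 ≤ V.toSubring) (hIC0 : IC V.toSubring (Q 0))
    (hQs : ∀ l, Q (l + 1) = qt V.toSubring (Q l)) {G : ℕ → Prop}
    (hG : ∀ i, G i → ∀ _ : IsLocalRing (Q i), PerfectField (ResidueField (Q i)) ∧ Spn V (Q i))
    {J : Ideal (Q 0)} {μ l : ℕ} (hJ : ¬ J ≤ maximalIdeal (Q 0) ^ (μ + 1))
    (hl : μ ≤ {i | i < l ∧ G i}.ncard) :
    ∃ f ∈ J, (∀ g ∈ J, (g : K) / (f : K) ∈ Q l) ∧ ∃ h : (f : K) ∈ Q l,
      RegularPair (Q l) (Ideal.span {(⟨(f : K), h⟩ : Q l)}) := by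
  have hnontriv := nontriv hreg0 hne hQ0 hIC0
  obtain ⟨hmono, hall⟩ := seq_all hQs hQ0 hIC0 hreg0 hnontriv
  have hreg : ∀ l, IsRegularLocalRing (Q l) := fun l => (hall l).2.2.1
  have hloc : ∀ l, IsLocalRing (Q l) := fun l => (hreg l).toIsLocalRing
  have hzp : ∀ l, ∃ z, Zp V (Q l) (Q (l + 1)) z := fun l =>
    exists_zp (hQs l) (hall l).1 (hall l).2.1 (hall l).2.2.2
  choose z hz using hzp
  obtain ⟨f, hf, hfJ⟩ := Set.not_subset.1 hJ
  obtain ⟨m, hm, hor⟩ := exists_or (Q := Q) (l := 0) (S := (fun a : Q 0 => (a : K)) '' J)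
    (k := μ + 1) (by
      rintro _ ⟨a, _, rfl⟩
      exact a.2) ⟨f, ⟨f, hf, rfl⟩, fun h => hfJ (inP_coe.1 h)⟩
  obtain ⟨M, hM, m', h1, h2⟩ := or_count hz (G := G) (fun i hi => hG i hi (hloc i)) hor l
  have hm' : m' = 0 := by omega
  subst hm'
  obtain ⟨h3, t, ⟨s, ⟨g, hg, rfl⟩, rfl⟩, h4⟩ := h1
  have h5 : ∀ a ∈ J, (a : K) * M⁻¹ ∈ Q l := by
    intro a ha
    obtain ⟨b, hb, -⟩ := h3 _ ⟨a, ⟨a, ha, rfl⟩, rfl⟩
    change (b : K) = (a : K) * M⁻¹ at hb
    rw [← hb]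
    exact b.2
  have h6 : Un (Q l) ((g : K) * M⁻¹) := un_of_inP (h5 g hg) h4
  have hM0 : M ≠ 0 := by
    rintro rfl
    rw [inv_zero, mul_zero] at h6
    exact h6.1 rfl
  have hg0 : (g : K) ≠ 0 := left_ne_zero_of_mul h6.1
  refine ⟨g, hg, fun a ha => ?_, hmono (Nat.zero_le l) g.2, ?_⟩
  · have h7 : (a : K) / (g : K) = ((a : K) * M⁻¹) * ((g : K) * M⁻¹)⁻¹ := by field_simp
    rw [h7]
    exact (Q l).mul_mem (h5 a ha) h6.2.2
  · obtain ⟨ι, _, x, hr, hx⟩ := track hQs hmono hQ0 hIC0 hreg0 hz l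
    refine hr.pair ?_
    have h8 : Mz Q z l ((g : K)) := ⟨(g : K) * M⁻¹, M, 1, h6, hM, Submonoid.one_mem _, by
      field_simp⟩
    exact h8.pmon hr.ne hx

end main

end Pool.Agent.Q40.SP
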