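import Pool.Agent.Q40.SP.Dir
import Pool.Agent.Q40.RP.Blw

/-!
# Dehomogenization and translation
-/

set_option autoImplicit false
set_option linter.unusedVariables false
set_option linter.unusedSectionVars false

universe u v

namespace Pool.Agent.Q40.SP

open MvPolynomial Pool.Agent.Q40.RP

section deh

variable {L : Type v} [Field L] {n : ℕ}

/-- Dehomogenization. -/
noncomputable def dh (j : Fin n) : MvPolynomial (Fin n) L →ₐ[L] MvPolynomial (Fin n) L :=
  bind₁ fun i => if i = j then 1 else X i

/-- Dehomogenization and translation. -/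
noncomputable def sp (j : Fin n) (y : Fin n → L) :
    MvPolynomial (Fin n) L →ₐ[L] MvPolynomial (Fin n) L :=
  bind₁ fun i => if i = j then 1 else X i + C (y i)

lemma dh_eq_tr (j : Fin n) (G : MvPolynomial (Fin n) L) :
    dh j G = tr (fun γ => γ.update j 0) G := by
  classical
  unfold dh tr
  conv_lhs => rw [← G.support_sum_monomial_coeff, map_sum]
  refine Finset.sum_congr rfl fun γ _ => ?_
  rw [bind₁_monomial, monomial_eq, Finsupp.prod_fintype _ _ fun i => pow_zero _,
    Finset.prod_subset (Finset.subset_univ γ.support) (fun i _ hi => by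
      rw [Finsupp.notMem_support_iff.1 hi, pow_zero])]
  congr 1
  refine Finset.prod_congr rfl fun i _ => ?_
  by_cases hi : i = j
  · rw [if_pos hi, hi, one_pow, Finsupp.coe_update, Function.update_self, pow_zero]
  · rw [if_neg hi, Finsupp.coe_update, Function.update_of_ne hi]

lemma hom_degree {R : Type u} [CommRing R] {m : ℕ} {G : MvPolynomial (Fin n) R}
    (hG : G.IsHomogeneous m) {γ : Fin n →₀ ℕ} (hγ : coeff γ G ≠ 0) : Finsupp.degree γ = m := by
  have h4 := hG hγ
  rw [← h4, Finsupp.degree_eq_weight_one]
  rfl

/-- Dehomogenization is injective on forms. -/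
lemma dh_zero {j : Fin n} {m : ℕ} {G : MvPolynomial (Fin n) L} (hG : G.IsHomogeneous m)
    (h : dh j G = 0) : G = 0 := by
  classical
  rw [dh_eq_tr] at h
  by_contra hne
  obtain ⟨γ, hγ⟩ := MvPolynomial.ne_zero_iff.1 hne
  have hrel : ∀ γ : Fin n →₀ ℕ, Finsupp.degree γ = m → Rel j m γ (γ.update j 0) := by
    intro γ hγ
    have h1 := rel_down (j := j) (le_of_eq hγ.symm)
    rwa [hγ, Nat.sub_self] at h1
  have h1 := coeff_tr (φ := fun γ : Fin n →₀ ℕ => γ.update j 0) (E := G)
    (D := {γ | Finsupp.degree γ = m}) (fun γ hγ => hom_degree hG hγ) (by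
      intro a ha b hb hab
      have h2 := hrel a ha
      have h3 := hrel b hb
      change a.update j 0 = b.update j 0 at hab
      rw [hab] at h2
      exact h2.unique_left h3) (γ := γ) (hom_degree hG hγ)
  rw [h, coeff_zero] at h1
  exact hγ h1.symm

lemma totalDegree_sp {j : Fin n} {y : Fin n → L} {m : ℕ} {G : MvPolynomial (Fin n) L}
    (hG : G.IsHomogeneous m) : (sp j y G).totalDegree ≤ m := by
  classical
  unfold sp
  conv_lhs => rw [← G.support_sum_monomial_coeff, map_sum]
  refine totalDegree_finsetSum_le fun δ hδ => ?_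
  rw [bind₁_monomial]
  refine (totalDegree_mul _ _).trans ?_
  rw [totalDegree_C, zero_add]
  refine (totalDegree_finsetProd _ _).trans ?_
  have h0 : ∑ i ∈ δ.support, δ i = m := by
    rw [← hom_degree hG (mem_support_iff.1 hδ), Finsupp.degree_apply]
  rw [← h0]
  refine Finset.sum_le_sum fun i _ => ?_
  refine (totalDegree_pow _ _).trans ?_
  have h1 : (if i = j then 1 else X i + C (y i) : MvPolynomial (Fin n) L).totalDegree ≤ 1 := by
    split_ifs
    · rw [totalDegree_one]
      exact Nat.zero_le _
    · refine (totalDegree_add _ _).trans ?_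
      rw [totalDegree_X, totalDegree_C]
      simp
  calc δ i * (if i = j then 1 else X i + C (y i) : MvPolynomial (Fin n) L).totalDegree
      ≤ δ i * 1 := Nat.mul_le_mul_left _ h1
    _ = δ i := mul_one _

/-- The form with the given dehomogenization. -/
noncomputable def up (j : Fin n) (y : Fin n → L) :
    MvPolynomial (Fin n) L →ₐ[L] MvPolynomial (Fin n) L :=
  bind₁ fun i => if i = j then 0 else X i - C (y i) * X j

lemma dh_up (j : Fin n) (y : Fin n → L) (G : MvPolynomial (Fin n) L) :
    dh j (up j y (sp j y G)) = dh j G := by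
  have h1 : ((dh j).comp (up j y)).comp (sp j y) = dh j := by
    apply MvPolynomial.algHom_ext
    intro i
    by_cases hi : i = j
    · subst hi
      simp [dh, up, sp]
    · simp [dh, up, sp, hi]
  exact DFunLike.congr_fun h1 G

lemma sg_up {j : Fin n} {y : Fin n → L} (hj : y j = 1) (H : MvPolynomial (Fin n) L) :
    sg j y (up j y H) = up j y H := by
  have h1 : (sg j y).comp (up j y) = up j y := by
    apply MvPolynomial.algHom_ext
    intro i
    by_cases hi : i = j
    · subst hi
      simp [sg, up]
    · simp [sg, up, hi, hj]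
  exact DFunLike.congr_fun h1 H

/-- The multiplicity of a translate of the dehomogenization of a form. -/
theorem sp_low {j : Fin n} {y : Fin n → L} (hj : y j = 1) {m : ℕ} {G : MvPolynomial (Fin n) L}
    (hG : G.IsHomogeneous m) (h : Low m (sp j y G)) :
    sg j y G = G ∧ (Low (m + 1) (sp j y G) → G = 0) := by
  classical
  have htd := totalDegree_sp (j := j) (y := y) hG
  have hle : ∀ γ, coeff γ (sp j y G) ≠ 0 → Finsupp.degree γ ≤ m := by
    intro γ hγ
    refine le_trans ?_ htd
    have := le_totalDegree (mem_support_iff.2 hγ)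
    rw [Finsupp.degree_apply]
    exact this
  have hhom : (sp j y G).IsHomogeneous m := by
    intro γ hγ
    have e : Finsupp.degree γ = Finsupp.weight 1 γ := by
      rw [Finsupp.degree_eq_weight_one]
      rfl
    rw [← e]
    exact le_antisymm (hle γ hγ) (h γ hγ)
  have hup : (up j y (sp j y G)).IsHomogeneous m := by
    have h1 := hhom.aeval (n := 1) (fun i => if i = j then (0 : MvPolynomial (Fin n) L) else
      X i - C (y i) * X j) (fun i => by
        split_ifs
        · exact isHomogeneous_zero _ _ _
        · refine (isHomogeneous_X _ _).sub ?_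
          exact (isHomogeneous_X L j).C_mul _)
    rwa [one_mul] at h1
  have hG' : up j y (sp j y G) = G := by
    have h1 := dh_zero (j := j) (hup.sub hG) (by rw [map_sub, dh_up, sub_self])
    exact sub_eq_zero.1 h1
  refine ⟨?_, fun hlow => ?_⟩
  · conv_rhs => rw [← hG', ← sg_up hj]
    rw [hG']
  · rw [← hG']
    have h1 : sp j y G = 0 := by
      by_contra hne
      obtain ⟨γ, hγ⟩ := MvPolynomial.ne_zero_iff.1 hne
      have h2 := hlow γ hγ
      have h3 := hle γ hγ
      omega
    rw [h1, map_zero]

end deh

end Pool.Agent.Q40.SP
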