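import Pool.Agent.Q40.RP.SZ

/-!
# Forms which are invariant under translations along a vector with independent coordinates
-/

set_option autoImplicit false
set_option linter.unusedVariables false
set_option linter.unusedSectionVars false

universe u v

namespace Pool.Agent.Q40.SP

open MvPolynomial

section d2

variable {κ : Type u} {L : Type v} [Field κ] [Field L] {n : ℕ}

/-- The substitution of `X i - y i * X j` for `X i`. -/
noncomputable def sg (j : Fin n) (y : Fin n → L) :
    MvPolynomial (Fin n) L →ₐ[L] MvPolynomial (Fin n) L :=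
  bind₁ fun i => X i - C (y i) * X j

/-- The derivation along `y`. -/
noncomputable def dl (y : Fin n → L) (G : MvPolynomial (Fin n) L) : MvPolynomial (Fin n) L :=
  ∑ i, C (y i) * pderiv i G

lemma dl_add (y : Fin n → L) (G H : MvPolynomial (Fin n) L) : dl y (G + H) = dl y G + dl y H := by
  unfold dl
  rw [← Finset.sum_add_distrib]
  exact Finset.sum_congr rfl fun i _ => by rw [map_add, mul_add]

lemma dl_mul (y : Fin n → L) (G H : MvPolynomial (Fin n) L) :
    dl y (G * H) = G * dl y H + H * dl y G := by
  unfold dl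
  rw [Finset.mul_sum, Finset.mul_sum, ← Finset.sum_add_distrib]
  refine Finset.sum_congr rfl fun i _ => ?_
  rw [Derivation.leibniz, smul_eq_mul, smul_eq_mul]
  ring

lemma dl_C (y : Fin n → L) (a : L) : dl y (C a) = 0 := by
  unfold dl
  exact Finset.sum_eq_zero fun i _ => by rw [pderiv_C, mul_zero]

lemma dl_X (y : Fin n → L) (i : Fin n) : dl y (X i) = C (y i) := by
  classical
  unfold dl
  rw [Finset.sum_eq_single i]
  · rw [pderiv_X_self, mul_one]
  · intro l _ hl
    rw [pderiv_X_of_ne hl.symm, mul_zero]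
  · intro h
    exact absurd (Finset.mem_univ _) h

lemma dl_sg {j : Fin n} {y : Fin n → L} (hj : y j = 1) (G : MvPolynomial (Fin n) L) :
    dl y (sg j y G) = 0 := by
  induction G using MvPolynomial.induction_on with
  | C a =>
    have h1 : sg j y (C a) = C a := by simp [sg]
    rw [h1, dl_C]
  | add p q hp hq => rw [map_add, dl_add, hp, hq, add_zero]
  | mul_X p i hp =>
    have h1 : sg j y (X i) = X i + C (-y i) * X j := by
      simp [sg]
      ring
    rw [map_mul, dl_mul, hp, mul_zero, add_zero, h1, dl_add, dl_mul, dl_C, dl_X, dl_X, hj, C_1,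
      mul_zero, add_zero, mul_one, C_neg, add_neg_cancel, mul_zero]

/-- The partial derivatives of a form over `κ` killed by the derivation. -/
lemma pderiv_zero (ι : κ →+* L) {y : Fin n → L}
    (hli : ∀ c : Fin n → κ, ∑ i, ι (c i) * y i = 0 → c = 0) {F : MvPolynomial (Fin n) κ}
    (h : dl y (map ι F) = 0) (i : Fin n) : pderiv i F = 0 := by
  ext γ
  have h1 : (fun i => coeff γ (pderiv i F)) = 0 := by
    apply hli
    have h2 := congrArg (coeff γ) h
    unfold dl at h2
    rw [coeff_sum, coeff_zero] at h2
    rw [← h2]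
    refine Finset.sum_congr rfl fun i _ => ?_
    rw [coeff_C_mul, pderiv_map, coeff_map, mul_comm]
  rw [coeff_zero]
  exact congrFun h1 i

lemma expo_zero {F : MvPolynomial (Fin n) κ} (h : ∀ i, pderiv i F = 0) {γ : Fin n →₀ ℕ}
    (hγ : coeff γ F ≠ 0) (i : Fin n) : ((γ i : ℕ) : κ) = 0 := by
  classical
  by_cases h0 : γ i = 0
  · rw [h0, Nat.cast_zero]
  · have h1 := congrArg (coeff (γ - Finsupp.single i 1)) (h i)
    rw [coeff_pderiv, coeff_zero] at h1
    have h2 : γ - Finsupp.single i 1 + Finsupp.single i 1 = γ := by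
      apply tsub_add_cancel_of_le
      rw [Finsupp.single_le_iff]
      omega
    rw [h2] at h1
    have h3 : (((γ - Finsupp.single i 1 : Fin n →₀ ℕ) i + 1 : ℕ) : κ) = ((γ i : ℕ) : κ) := by
      have h4 := DFunLike.congr_fun h2 i
      rw [Finsupp.add_apply, Finsupp.single_eq_same] at h4
      rw [h4]
    push_cast at h3 h1
    rcases mul_eq_zero.1 h1 with h4 | h4
    · exact absurd h4 hγ
    · rw [← h3]
      exact h4

lemma sg_expand {p : ℕ} [Fact p.Prime] [CharP L p] (j : Fin n) (y : Fin n → L)
    (G : MvPolynomial (Fin n) L) :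
    sg j y (expand p G) = expand p (sg j (fun i => y i ^ p) G) := by
  unfold sg
  rw [expand_bind₁]
  have h1 : ∀ i, expand p (X i - C (y i ^ p) * X j : MvPolynomial (Fin n) L) =
      (X i - C (y i) * X j) ^ p := by
    intro i
    rw [sub_pow_char, mul_pow, map_sub, map_mul, expand_X, expand_X, expand_C, C_pow]
  simp only [h1]
  induction G using MvPolynomial.induction_on with
  | C a => simp
  | add p q hp hq => simp only [map_add, hp, hq]
  | mul_X q i hq =>
    rw [map_mul, map_mul, map_mul, hq, expand_X, map_pow, bind₁_X_right, bind₁_X_right]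

/-- A form over the perfect field `κ` which is invariant under the translations along a vector with
coordinates in an extension, linearly independent over `κ`, is constant. -/
theorem dir_zero [PerfectField κ] (ι : κ →+* L) : ∀ (m : ℕ), 1 ≤ m →
    ∀ (j : Fin n) (y : Fin n → L), y j = 1 →
    (∀ c : Fin n → κ, ∑ i, ι (c i) * y i = 0 → c = 0) →
    ∀ F : MvPolynomial (Fin n) κ, F.IsHomogeneous m → sg j y (map ι F) = map ι F → F = 0 := by
  classical
  intro m
  induction m using Nat.strong_induction_on with
  | _ m ih =>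
  intro hm j y hj hli F hF hinv
  have h1 : dl y (map ι F) = 0 := by rw [← hinv]; exact dl_sg hj _
  have h2 := fun i => pderiv_zero ι hli h1 i
  have h3 : ∀ γ, coeff γ F ≠ 0 → ∀ i, ((γ i : ℕ) : κ) = 0 := fun γ hγ i => expo_zero h2 hγ i
  have hdeg : ∀ γ, coeff γ F ≠ 0 → ∑ i, γ i = m := by
    intro γ hγ
    have h4 := hF hγ
    rw [← h4, Finsupp.weight_apply, Finsupp.sum_fintype _ _ (fun i => by simp)]
    simp
  obtain ⟨p, hp⟩ := CharP.exists κ
  rcases hp.char_is_prime_or_zero (R := κ) p with hpr | h0
  · have : Fact p.Prime := ⟨hpr⟩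
    have : CharP L p := (RingHom.charP_iff ι ι.injective p).1 hp
    have hdvd : ∀ γ, coeff γ F ≠ 0 → ∀ i, p ∣ γ i := fun γ hγ i =>
      (CharP.cast_eq_zero_iff κ p _).1 (h3 γ hγ i)
    let dv : (Fin n →₀ ℕ) → (Fin n →₀ ℕ) := fun γ => γ.mapRange (fun a => a / p) (Nat.zero_div p)
    have hdv : ∀ γ, coeff γ F ≠ 0 → p • dv γ = γ := by
      intro γ hγ
      ext i
      rw [Finsupp.smul_apply, Finsupp.mapRange_apply, smul_eq_mul]
      exact Nat.mul_div_cancel' (hdvd γ hγ i)
    let F₁ : MvPolynomial (Fin n) κ := ∑ γ ∈ F.support, monomial (dv γ) (coeff γ F)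
    have hF₁ : expand p F₁ = F := by
      conv_rhs => rw [← F.support_sum_monomial_coeff]
      rw [map_sum]
      refine Finset.sum_congr rfl fun γ hγ => ?_
      rw [expand_monomial, hdv γ (mem_support_iff.1 hγ)]
    by_contra hne
    obtain ⟨γ₀, hγ₀⟩ := MvPolynomial.ne_zero_iff.1 hne
    have hpm : p ∣ m := by
      rw [← hdeg γ₀ hγ₀]
      exact Finset.dvd_sum fun i _ => hdvd γ₀ hγ₀ i
    obtain ⟨m', rfl⟩ := hpm
    have hm' : 1 ≤ m' := by
      rcases Nat.eq_zero_or_pos m' with h | h
      · rw [h, mul_zero] at hm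
        omega
      · exact h
    have hlt : m' < p * m' := by
      have := hpr.two_le
      nlinarith
    have hF₁h : F₁.IsHomogeneous m' := by
      refine IsHomogeneous.sum _ _ _ fun γ hγ => ?_
      apply isHomogeneous_monomial
      have hγ' := mem_support_iff.1 hγ
      have h4 : p * ∑ i, (dv γ) i = p * m' := by
        rw [← hdeg γ hγ', Finset.mul_sum]
        refine Finset.sum_congr rfl fun i _ => ?_
        have := DFunLike.congr_fun (hdv γ hγ') i
        rw [← this]
        rfl
      rw [Finsupp.degree_eq_sum]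
      exact Nat.eq_of_mul_eq_mul_left hpr.pos h4
    apply hne
    rw [← hF₁, ih m' hlt hm' j (fun i => y i ^ p) (by simp only [hj, one_pow]) ?_ F₁ hF₁h ?_,
      map_zero]
    · intro c hc
      have : ExpChar κ p := inferInstance
      have : PerfectRing κ p := PerfectField.toPerfectRing p
      choose d hd using fun i => surjective_frobenius κ p (c i)
      have h5 : (∑ i, ι (d i) * y i) ^ p = 0 := by
        rw [← frobenius_def, map_sum, ← hc]
        refine Finset.sum_congr rfl fun i _ => ?_
        rw [frobenius_def, mul_pow, ← map_pow, ← hd i, frobenius_def]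
      have h6 := hli d (pow_eq_zero_iff hpr.ne_zero |>.1 h5)
      funext i
      rw [← hd i, h6]
      simp [frobenius_def, hpr.ne_zero]
    · apply expand_injective hpr.pos
      rw [← sg_expand, ← map_expand, hF₁, hinv]
  · subst h0
    have : CharZero κ := CharP.charP_to_charZero κ
    by_contra hne
    obtain ⟨γ₀, hγ₀⟩ := MvPolynomial.ne_zero_iff.1 hne
    have h4 := hdeg γ₀ hγ₀
    have h5 : ∑ i, γ₀ i = 0 := Finset.sum_eq_zero fun i _ => by exact_mod_cast h3 γ₀ hγ₀ i
    omega

end d2

end Pool.Agent.Q40.SP
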