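import Pool.Agent.Q40.SP.Theta

/-!
# The order of the transform of a function under a quadratic transform
-/

set_option autoImplicit false
set_option linter.unusedVariables false
set_option linter.unusedSectionVars false

universe u v

namespace Pool.Agent.Q40.SP

open MvPolynomial IsLocalRing Pool.Agent.Q40.RP Pool.Agent.TH188.QS Pool.Agent.W418.LU2

section ord

variable {K : Type u} [Field K] {V : ValuationSubring K} {P : Subring K}

/-- All elements of the maximal ideal which are not in its square have the same value. -/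
def Spn (V : ValuationSubring K) (P : Subring K) [IsLocalRing P] : Prop :=
  ∀ a b : P, a ∈ maximalIdeal P → a ∉ maximalIdeal P ^ 2 → b ∈ maximalIdeal P →
    b ∉ maximalIdeal P ^ 2 → V.valuation (a : K) = V.valuation (b : K)

lemma mem_max [IsLocalRing P] (hP : P ≤ V.toSubring) (hIC : IC V.toSubring P) (q : P) :
    q ∈ maximalIdeal P ↔ NU V.toSubring (q : K) := by
  rw [mem_maximalIdeal, mem_nonunits_iff, not_iff_comm]
  constructor
  · intro h
    unfold NU at h
    push Not at h
    have h1 := hIC q q.2 h.1 h.2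
    exact isUnit_iff_exists_inv.2 ⟨⟨_, h1⟩, Subtype.ext (mul_inv_cancel₀ h.1)⟩
  · intro h hn
    obtain ⟨c, hc⟩ := isUnit_iff_exists_inv.1 h
    have h1 : (q : K) * (c : K) = 1 := congrArg Subtype.val hc
    apply hn
    refine ⟨left_ne_zero_of_mul (by rw [h1]; exact one_ne_zero), ?_⟩
    rw [inv_eq_of_mul_eq_one_right h1]
    exact hP c.2

lemma tau_zero [IsLocalRing P] (hP : P ≤ V.toSubring) (hIC : IC V.toSubring P) (q : P)
    (h : residue P q = 0) : tau V hP q = 0 := by
  rw [residue_eq_zero_iff, mem_max hP hIC] at h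
  exact residue_zero (hP q.2) h

variable [IsRegularLocalRing P] {n : ℕ} {x : Fin n → P} {j : Fin n}

/-- The residue fields. -/
noncomputable def iot (hP : P ≤ V.toSubring) (hIC : IC V.toSubring P) :
    ResidueField P →+* ResidueField V :=
  Ideal.Quotient.lift (maximalIdeal P) (tau V hP) fun q hq =>
    tau_zero hP hIC q ((residue_eq_zero_iff q).2 hq)

lemma iot_residue (hP : P ≤ V.toSubring) (hIC : IC V.toSubring P) (q : P) :
    iot hP hIC (residue P q) = tau V hP q := rfl

lemma map_tau (hP : P ≤ V.toSubring) (hIC : IC V.toSubring P) (F : MvPolynomial (Fin n) P) :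
    map (tau V hP) F = map (iot hP hIC) (map (residue P) F) := by
  rw [map_map]
  rfl

section base

variable (hP : P ≤ V.toSubring) (hIC : IC V.toSubring P)
  (hx : Ideal.span (Set.range x) = maximalIdeal P) (hz : Mi V.toSubring P (x j : K))

include hP hIC hx hz

lemma hy_of (i : Fin n) : (x i : K) * (x j : K)⁻¹ ∈ V := by
  refine hz.min _ (x i).2 ((mem_max hP hIC _).1 ?_)
  rw [← hx]
  exact Ideal.subset_span ⟨i, rfl⟩

lemma hgen_of : ∀ v ∈ P, NU V.toSubring v → ∃ c : Fin n → P, v = ∑ i, (c i : K) * (x i : K) := by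
  intro v hv hn
  have h1 : (⟨v, hv⟩ : P) ∈ maximalIdeal P := (mem_max hP hIC _).2 hn
  rw [← hx, Ideal.mem_span_range_iff_exists_fun] at h1
  obtain ⟨c, hc⟩ := h1
  refine ⟨c, ?_⟩
  have h2 := congrArg Subtype.val hc
  push_cast at h2
  exact h2.symm

lemma hxy_of (i : Fin n) : (x i : K) = (x j : K) * ((x i : K) * (x j : K)⁻¹) := by
  have := hz.ne
  field_simp

/-- The residues of the ratios of the parameters are independent if all parameters have the
same value. -/
lemma li_of (hdim : ((n : ℕ) : WithBot ℕ∞) ≤ ringKrullDim P) (hs : Spn V P)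
    (c : Fin n → ResidueField P)
    (hc : ∑ i, iot hP hIC (c i) * yb (hy_of hP hIC hx hz) i = 0) : c = 0 := by
  classical
  have hind : Ind x := ind_of_span hx (by rwa [Fintype.card_fin])
  by_contra hne
  obtain ⟨i₀, hi₀⟩ := Function.ne_iff.1 hne
  choose C hC using fun i => residue_surjective (c i)
  let w : P := ∑ i, C i * x i
  have hwm : w ∈ maximalIdeal P := Ideal.sum_mem _ fun i _ => Ideal.mul_mem_left _ _ (hind.1 i)
  have hw2 : w ∉ maximalIdeal P ^ 2 := by
    intro h
    apply hi₀
    have h1 := hind.2 C h i₀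
    rw [← hC i₀, Pi.zero_apply, residue_eq_zero_iff]
    exact h1
  have hj2 : x j ∉ maximalIdeal P ^ 2 := by
    intro h
    have h1 := hind.2 (Pi.single j 1) (by
      rw [Finset.sum_eq_single j]
      · rw [Pi.single_eq_same, one_mul]
        exact h
      · intro i _ hi
        rw [Pi.single_eq_of_ne hi, zero_mul]
      · intro h
        exact absurd (Finset.mem_univ _) h) j
    rw [Pi.single_eq_same] at h1
    exact (maximalIdeal.isMaximal P).ne_top ((Ideal.eq_top_iff_one _).2 h1)
  have hval := hs w (x j) hwm hw2 (hind.1 j) hj2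
  have hxj : (x j : K) ≠ 0 := hz.ne
  have hq : V.valuation ((w : K) * (x j : K)⁻¹) = 1 := by
    rw [map_mul, map_inv₀, hval]
    exact mul_inv_cancel₀ ((Valuation.ne_zero_iff _).2 hxj)
  have hqV : (w : K) * (x j : K)⁻¹ ∈ V := (V.valuation_le_one_iff _).1 hq.le
  have hqi : ((w : K) * (x j : K)⁻¹)⁻¹ ∈ V := by
    rw [← V.valuation_le_one_iff, map_inv₀, hq, inv_one]
  have hq0 : (w : K) * (x j : K)⁻¹ ≠ 0 := by
    intro h
    rw [h, map_zero] at hq
    exact zero_ne_one hq
  refine residue_ne hqV hq0 hqi ?_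
  rw [← hc]
  have h2 : (⟨(w : K) * (x j : K)⁻¹, hqV⟩ : V) = ∑ i, (⟨C i, hP (C i).2⟩ : V) *
      ⟨(x i : K) * (x j : K)⁻¹, hy_of hP hIC hx hz i⟩ := by
    apply Subtype.ext
    change ((∑ i, C i * x i : P) : K) * (x j : K)⁻¹ = V.subtype (∑ i, (⟨C i, hP (C i).2⟩ : V) *
      ⟨(x i : K) * (x j : K)⁻¹, hy_of hP hIC hx hz i⟩)
    rw [map_sum]
    push_cast
    rw [Finset.sum_mul]
    refine Finset.sum_congr rfl fun i _ => ?_
    rw [map_mul]
    change (C i : K) * (x i : K) * (x j : K)⁻¹ = (C i : K) * ((x i : K) * (x j : K)⁻¹)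
    ring
  rw [h2, map_sum]
  refine Finset.sum_congr rfl fun i _ => ?_
  rw [map_mul, ← hC i, iot_residue]
  rfl

/-- The order of the transform. -/
theorem ord_step (hdim : ((n : ℕ) : WithBot ℕ∞) ≤ ringKrullDim P)
    [IsLocalRing (qt V.toSubring P)] {m : ℕ} {f : P} (hf : f ∈ maximalIdeal P ^ m) :
    ∃ g : qt V.toSubring P, (g : K) = (f : K) * ((x j : K) ^ m)⁻¹ ∧
      (f ∉ maximalIdeal P ^ (m + 1) → g ∉ maximalIdeal (qt V.toSubring P) ^ (m + 1) ∧
        (PerfectField (ResidueField P) → Spn V P → 1 ≤ m →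
          g ∉ maximalIdeal (qt V.toSubring P) ^ m)) := by
  classical
  have hy := hy_of hP hIC hx hz
  have hgen := hgen_of hP hIC hx hz
  have hxy := hxy_of hP hIC hx hz
  have hxj : (x j : K) ≠ 0 := hz.ne
  have hj1 : (x j : K) * (x j : K)⁻¹ = 1 := mul_inv_cancel₀ hxj
  have hfa := fra_base (K := K) hx hdim
  have hτ : ∀ q, residue P q = 0 → tau V hP q = 0 := tau_zero hP hIC
  rw [← hx, Ideal.mem_span_pow_iff_exists_isHomogeneous] at hf
  obtain ⟨F, hF, hFf⟩ := hf
  let y : Fin n → K := fun i => (x i : K) * (x j : K)⁻¹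
  have hev : (f : K) = (x j : K) ^ m * ev P y F := by
    rw [← ev_hom (x := fun i => (x i : K)) (j := j) (y := y) hxy hF, ev_coe, hFf]
  have hyQ : ∀ i, y i ∈ qt V.toSubring P := fun i => div_mem_qt hz (x i).2
    ((mem_max hP hIC _).1 (by rw [← hx]; exact Ideal.subset_span ⟨i, rfl⟩))
  have hevQ : ev P y F ∈ qt V.toSubring P := by
    rw [ev_sum]
    exact Subring.sum_mem _ fun γ _ => Subring.mul_mem _ (le_qt _ _ (coeff γ F).2)
      (Subring.prod_mem _ fun i _ => Subring.pow_mem _ (hyQ i) _)
  have hmax : ∀ z : qt V.toSubring P, z ∈ maximalIdeal (qt V.toSubring P) →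
      NU V.toSubring (z : K) := fun z hz' =>
    (mem_max (qt_le hP) (ic_qt hP) z).1 hz'
  refine ⟨⟨ev P y F, hevQ⟩, ?_, ?_⟩
  · change ev P y F = _
    rw [hev]
    field_simp
  · intro hfn
    have hne : map (residue P) F ≠ 0 := by
      intro h0
      apply hfn
      rw [← hFf, eval_eq']
      refine Ideal.sum_mem _ fun γ hγ => ?_
      rw [pow_succ']
      refine Ideal.mul_mem_mul ?_ ?_
      · rw [← residue_eq_zero_iff, ← coeff_map, h0, coeff_zero]
      · have h2 := hom_degree hF (mem_support_iff.1 hγ)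
        rw [← h2, Finsupp.degree_eq_sum, ← Finset.prod_pow_eq_pow_sum]
        exact Ideal.prod_mem_prod fun i _ => Ideal.pow_mem_pow (by
          rw [← hx]; exact Ideal.subset_span ⟨i, rfl⟩) _
    have hlow : ∀ l, (⟨ev P y F, hevQ⟩ : qt V.toSubring P) ∈
        maximalIdeal (qt V.toSubring P) ^ l → Low l (th hP hy j F) := by
      intro l hl
      have h3 := nk_pow (hP := hP) (hy := hy) hz hj1 hxy hgen hmax l _ hl
      exact h3.low hfa hτ hxy
    have hG : (map (tau V hP) F).IsHomogeneous m := hF.map _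
    have hzero : map (tau V hP) F = 0 → False := by
      intro h0
      apply hne
      rw [map_tau hP hIC] at h0
      have hinj : Function.Injective (map (iot hP hIC) :
          MvPolynomial (Fin n) (ResidueField P) →+* _) := map_injective _ (RingHom.injective _)
      exact (map_eq_zero_iff _ hinj).1 h0
    refine ⟨fun h => ?_, fun hperf hs hm h => ?_⟩
    · have h3 := hlow _ h
      exact hzero ((sp_low (j := j) (y := yb hy) (by
        have : (⟨(x j : K) * (x j : K)⁻¹, hy j⟩ : V) = 1 := Subtype.ext hj1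
        unfold yb
        rw [this, map_one]) hG (h3.mono (Nat.le_succ m))).2 h3)
    · have h3 := hlow _ h
      have hyj : yb hy j = 1 := by
        have : (⟨(x j : K) * (x j : K)⁻¹, hy j⟩ : V) = 1 := Subtype.ext hj1
        unfold yb
        rw [this, map_one]
      have h4 := (sp_low (j := j) (y := yb hy) hyj hG h3).1
      apply hne
      refine dir_zero (iot hP hIC) m hm j (yb hy) hyj
        (fun c hc => li_of hP hIC hx hz hdim hs c hc) _ (hF.map _) ?_
      rw [← map_tau hP hIC]
      exact h4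

end base

end ord

end Pool.Agent.Q40.SP
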