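import Pool.Agent.Q40.SP.Ord
import Pool.Agent.TH188.QS.Down3

/-!
# Sequences of quadratic transforms with infinitely many spanning steps
-/

set_option autoImplicit false
set_option linter.unusedVariables false
set_option linter.unusedSectionVars false

universe u v

namespace Pool.Agent.Q40.SP

open MvPolynomial IsLocalRing Pool.Agent.Q40.RP Pool.Agent.TH188.QS Pool.Agent.W418.LU2

section zp

variable {K : Type u} [Field K] {V : ValuationSubring K}

/-- The powers of the maximal ideal. -/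
def InP (P : Subring K) [IsLocalRing P] (m : ℕ) (s : K) : Prop :=
  ∃ f : P, (f : K) = s ∧ f ∈ maximalIdeal P ^ m

lemma inP_coe {P : Subring K} [IsLocalRing P] {m : ℕ} {f : P} :
    InP P m (f : K) ↔ f ∈ maximalIdeal P ^ m := by
  constructor
  · rintro ⟨g, hg, h⟩
    rwa [← Subtype.ext hg]
  · exact fun h => ⟨f, rfl, h⟩

lemma InP.mono {P : Subring K} [IsLocalRing P] {m l : ℕ} {s : K} (h : InP P m s) (hl : l ≤ m) :
    InP P l s := by
  obtain ⟨f, hf, h⟩ := h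
  exact ⟨f, hf, Ideal.pow_le_pow_right hl h⟩

/-- The exceptional parameter. -/
structure Zp (V : ValuationSubring K) (P P' : Subring K) [IsLocalRing P] [IsLocalRing P']
    (z : K) : Prop where
  mi : Mi V.toSubring P z
  le : ∀ m s, InP P m s → s * (z ^ m)⁻¹ ∈ P'
  ord : ∀ m s, InP P m s → ¬ InP P (m + 1) s → ¬ InP P' (m + 1) (s * (z ^ m)⁻¹)
  drop : PerfectField (ResidueField P) → Spn V P → ∀ m s, 1 ≤ m → InP P m s →
    ¬ InP P (m + 1) s → ¬ InP P' m (s * (z ^ m)⁻¹)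

theorem exists_zp {P P' : Subring K} [hreg : IsRegularLocalRing P] [IsLocalRing P']
    (hP' : P' = qt V.toSubring P) (hP : P ≤ V.toSubring) (hIC : IC V.toSubring P)
    (hne : ∃ y ∈ P, y ≠ 0 ∧ V.valuation y < 1) : ∃ z, Zp V P P' z := by
  classical
  subst hP'
  obtain ⟨z₀, hz₀⟩ := exists_mi hP hne
  have h0 : Ind (Empty.elim : Empty → P) := ⟨fun i => i.elim, fun _ _ i => i.elim⟩
  obtain ⟨n, w, hw, hd⟩ := h0.extend
  have hx : Ideal.span (Set.range w) = maximalIdeal P := by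
    rw [← hw]
    congr 1
    ext t
    simp
  have hdim : ((n : ℕ) : WithBot ℕ∞) ≤ ringKrullDim P := by
    rw [hd]
    simp
  have hmem : ∀ i, w i ∈ maximalIdeal P := fun i => by
    rw [← hx]; exact Ideal.subset_span ⟨i, rfl⟩
  have hnu : ∀ i, NU V.toSubring (w i : K) := fun i => (mem_max hP hIC _).1 (hmem i)
  have hind : Ind w := ind_of_span hx (by rwa [Fintype.card_fin])
  have hw0 : ∀ i, (w i : K) ≠ 0 := fun i h => hind.ne_zero i (Subtype.ext h)
  have hinv : ∀ i, (w i : K)⁻¹ ∉ V.toSubring := fun i h => hnu i ⟨hw0 i, h⟩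
  have hfull : Full V.toSubring P (fun i => (w i : K)) := by
    intro y hy hn
    have h1 : (⟨y, hy⟩ : P) ∈ maximalIdeal P := (mem_max hP hIC _).2 hn
    rw [← hx, Ideal.mem_span_range_iff_exists_fun] at h1
    obtain ⟨c, hc⟩ := h1
    refine ⟨fun i => (c i : K), fun i => (c i).2, fun i _ => hinv i, ?_⟩
    have h2 := congrArg Subtype.val hc
    push_cast at h2
    exact h2.symm
  obtain ⟨j, hj, hzj, hj0⟩ := hfull.exists_dvd (loc_V V) hP (fun i => (w i).2) hz₀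
  have hz : Mi V.toSubring P (w j : K) := hz₀.of_dvd (w j).2 hj0 hj hzj
  refine ⟨(w j : K), hz, ?_, ?_, ?_⟩
  · rintro m _ ⟨f, rfl, hf⟩
    obtain ⟨g, hg, -⟩ := ord_step hP hIC hx hz hdim hf
    rw [← hg]
    exact g.2
  · rintro m _ ⟨f, rfl, hf⟩ hn
    obtain ⟨g, hg, h⟩ := ord_step hP hIC hx hz hdim hf
    rw [inP_coe] at hn
    rw [← hg, inP_coe]
    exact (h hn).1
  · rintro hperf hs m _ hm ⟨f, rfl, hf⟩ hn
    obtain ⟨g, hg, h⟩ := ord_step hP hIC hx hz hdim hf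
    rw [inP_coe] at hn
    rw [← hg, inP_coe]
    exact (h hn).2 hperf hs hm

end zp

section seq

variable {K : Type u} [Field K] {V : ValuationSubring K} {Q : ℕ → Subring K}

/-- The elementary properties. -/
theorem seq_all (hQs : ∀ l, Q (l + 1) = qt V.toSubring (Q l)) (hQ0 : Q 0 ≤ V.toSubring)
    (hIC0 : IC V.toSubring (Q 0)) (hreg0 : IsRegularLocalRing (Q 0))
    (hne : ∃ y ∈ Q 0, y ≠ 0 ∧ V.valuation y < 1) :
    Monotone Q ∧ ∀ l, Q l ≤ V.toSubring ∧ IC V.toSubring (Q l) ∧ IsRegularLocalRing (Q l) ∧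
      ∃ y ∈ Q l, y ≠ 0 ∧ V.valuation y < 1 := by
  have hmono : Monotone Q := monotone_nat_of_le_succ fun l => by rw [hQs]; exact le_qt _ _
  refine ⟨hmono, fun l => ?_⟩
  induction l with
  | zero => exact ⟨hQ0, hIC0, hreg0, hne⟩
  | succ l ih =>
    obtain ⟨h1, h2, h3, h4⟩ := ih
    obtain ⟨z, hz⟩ := exists_mi h1 h4
    obtain ⟨κ, _, x', h5, -, -⟩ := regP_step (loc_V V) (RegP.of_reg h1 h2 h3) hz
    obtain ⟨y, hy, h⟩ := h4
    refine ⟨by rw [hQs]; exact qt_le h1, by rw [hQs]; exact ic_qt h1, by rw [hQs]; exact h5.reg,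
      y, hmono (Nat.le_succ l) hy, h⟩

variable [hloc : ∀ l, IsLocalRing (Q l)] {z : ℕ → K}

/-- The order of the set `S` is `m`. -/
def Or (Q : ℕ → Subring K) [∀ l, IsLocalRing (Q l)] (l : ℕ) (S : Set K) (m : ℕ) : Prop :=
  (∀ s ∈ S, InP (Q l) m s) ∧ ∃ s ∈ S, ¬ InP (Q l) (m + 1) s

lemma exists_or {l : ℕ} {S : Set K} (h0 : ∀ s ∈ S, s ∈ Q l) {k : ℕ} (hk : ∃ s ∈ S, ¬ InP (Q l) k s) :
    ∃ m, m < k ∧ Or Q l S m := by
  classical
  have hex : ∃ k, ∃ s ∈ S, ¬ InP (Q l) k s := ⟨k, hk⟩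
  have h1 := Nat.find_spec hex
  have h2 : Nat.find hex ≤ k := Nat.find_min' hex hk
  have h3 : Nat.find hex ≠ 0 := by
    intro h
    rw [h] at h1
    obtain ⟨s, hs, hn⟩ := h1
    exact hn ⟨⟨s, h0 s hs⟩, rfl, by rw [pow_zero, Ideal.one_eq_top]; exact trivial⟩
  obtain ⟨m, hm⟩ := Nat.exists_eq_succ_of_ne_zero h3
  rw [Nat.succ_eq_add_one] at hm
  refine ⟨m, by omega, ?_, by rw [← hm]; exact h1⟩
  intro s hs
  by_contra h4
  exact Nat.find_min hex (m := m) (by omega) ⟨s, hs, h4⟩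

/-- The elements divided by `M`. -/
def dv (S : Set K) (M : K) : Set K := (fun s => s * M⁻¹) '' S

lemma dv_dv (S : Set K) (M N : K) : dv (dv S M) N = dv S (M * N) := by
  unfold dv
  rw [Set.image_image]
  refine Set.image_congr fun s _ => ?_
  rw [mul_inv]
  ring

lemma dv_one (S : Set K) : dv S 1 = S := by
  unfold dv
  simp

variable (hz : ∀ l, Zp V (Q l) (Q (l + 1)) (z l))

/-- The monomials in the exceptional parameters. -/
def Mn (z : ℕ → K) (l : ℕ) : Submonoid K := Submonoid.closure (z '' {i | i < l})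

lemma mn_mono : Monotone (Mn z) := fun a b h =>
  Submonoid.closure_mono (Set.image_mono fun i hi => lt_of_lt_of_le hi h)

lemma z_mem (l : ℕ) : z l ∈ Mn z (l + 1) :=
  Submonoid.subset_closure ⟨l, Nat.lt_succ_self l, rfl⟩

include hz

lemma or_step {l m : ℕ} {S : Set K} (h : Or Q l S m) :
    ∃ m', m' ≤ m ∧ Or Q (l + 1) (dv S (z l ^ m)) m' ∧
      (PerfectField (ResidueField (Q l)) → Spn V (Q l) → 1 ≤ m → m' < m) := by
  classical
  obtain ⟨h1, s, hs, h2⟩ := h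
  have h3 : ∀ t ∈ dv S (z l ^ m), t ∈ Q (l + 1) := by
    rintro _ ⟨s, hs, rfl⟩
    exact (hz l).le m s (h1 s hs)
  by_cases hg : (PerfectField (ResidueField (Q l)) ∧ Spn V (Q l)) ∧ 1 ≤ m
  · obtain ⟨m', hm', h4⟩ := exists_or h3 ⟨_, ⟨s, hs, rfl⟩, (hz l).drop hg.1.1 hg.1.2 m s hg.2
      (h1 s hs) h2⟩
    exact ⟨m', by omega, h4, fun _ _ _ => hm'⟩
  · obtain ⟨m', hm', h4⟩ := exists_or h3 ⟨_, ⟨s, hs, rfl⟩, (hz l).ord m s (h1 s hs) h2⟩
    exact ⟨m', by omega, h4, fun a b c => absurd ⟨⟨a, b⟩, c⟩ hg⟩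

lemma or_run (d : ℕ) : ∀ {l m : ℕ} {S : Set K}, Or Q l S m → 1 ≤ m →
    PerfectField (ResidueField (Q (l + d))) → Spn V (Q (l + d)) →
    ∃ l' M m', l ≤ l' ∧ M ∈ Mn z l' ∧ m' < m ∧ Or Q l' (dv S M) m' := by
  induction d with
  | zero =>
    intro l m S h hm hp hs
    obtain ⟨m', -, h1, h2⟩ := or_step hz h
    exact ⟨l + 1, z l ^ m, m', Nat.le_succ l, Submonoid.pow_mem _ (z_mem l) m, h2 hp hs hm, h1⟩
  | succ d ih =>
    intro l m S h hm hp hs
    obtain ⟨m₁, hm₁, h1, -⟩ := or_step hz h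
    rcases lt_or_eq_of_le hm₁ with hlt | heq
    · exact ⟨l + 1, z l ^ m, m₁, Nat.le_succ l, Submonoid.pow_mem _ (z_mem l) m, hlt, h1⟩
    · subst heq
      have e : l + (d + 1) = l + 1 + d := by omega
      rw [e] at hp hs
      obtain ⟨l', M, m', hl', hM, hlt, h2⟩ := ih h1 hm hp hs
      refine ⟨l', z l ^ m₁ * M, m', by omega, Submonoid.mul_mem _
        (mn_mono (by omega) (Submonoid.pow_mem _ (z_mem l) m₁)) hM, hlt, ?_⟩
      rwa [dv_dv] at h2

/-- The order becomes zero. -/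
theorem or_zero (hinf : ∀ N, ∃ p, N ≤ p ∧ PerfectField (ResidueField (Q p)) ∧ Spn V (Q p)) :
    ∀ (m : ℕ) {l : ℕ} {S : Set K}, Or Q l S m →
      ∃ l' M, l ≤ l' ∧ M ∈ Mn z l' ∧ Or Q l' (dv S M) 0 := by
  intro m
  induction m using Nat.strong_induction_on with
  | _ m ih =>
  intro l S h
  rcases Nat.eq_zero_or_pos m with h0 | hm
  · subst h0
    exact ⟨l, 1, le_rfl, Submonoid.one_mem _, by rwa [dv_one]⟩
  · obtain ⟨p, hp, hp1, hp2⟩ := hinf l
    obtain ⟨d, rfl⟩ := Nat.exists_eq_add_of_le hp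
    obtain ⟨l', M, m', hl', hM, hlt, h1⟩ := or_run hz d h hm hp1 hp2
    obtain ⟨l'', M', hl'', hM', h2⟩ := ih m' hlt h1
    refine ⟨l'', M * M', by omega, Submonoid.mul_mem _ (mn_mono hl'' hM) hM', ?_⟩
    rwa [dv_dv] at h2

end seq

end Pool.Agent.Q40.SP
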