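import Pool.Agent.Q40.SP.Deh
import Pool.Agent.Q40.RP.Base
import Pool.Agent.TH188.QS.Qt

/-!
# The powers of the maximal ideal of the quadratic transform
-/

set_option autoImplicit false
set_option linter.unusedVariables false
set_option linter.unusedSectionVars false

universe u v

namespace Pool.Agent.Q40.SP

open MvPolynomial IsLocalRing Pool.Agent.Q40.RP Pool.Agent.TH188.QS Pool.Agent.W418.LU2

section theta

variable {K : Type u} [Field K] (V : ValuationSubring K) {P : Subring K}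

/-- The reduction. -/
noncomputable def tau (hP : P ≤ V.toSubring) : P →+* ResidueField V where
  toFun q := residue V ⟨q, hP q.2⟩
  map_one' := map_one (residue V)
  map_mul' a b := map_mul (residue V) ⟨a, hP a.2⟩ ⟨b, hP b.2⟩
  map_zero' := map_zero (residue V)
  map_add' a b := map_add (residue V) ⟨a, hP a.2⟩ ⟨b, hP b.2⟩

variable {V} {n : ℕ} (hP : P ≤ V.toSubring) {x y : Fin n → K} (hy : ∀ i, y i ∈ V) {j : Fin n}

/-- The residues. -/
noncomputable def yb (hy : ∀ i, y i ∈ V) (i : Fin n) : ResidueField V := residue V ⟨y i, hy i⟩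

/-- The leading forms at the centre of the valuation. -/
noncomputable def th (hP : P ≤ V.toSubring) (hy : ∀ i, y i ∈ V) (j : Fin n) :
    MvPolynomial (Fin n) P →+* MvPolynomial (Fin n) (ResidueField V) :=
  (sp j (yb hy)).toRingHom.comp (map (tau V hP))

lemma th_apply (E : MvPolynomial (Fin n) P) : th hP hy j E = sp j (yb hy) (map (tau V hP) E) := rfl

lemma th_Xj : th hP hy j (X j) = 1 := by
  rw [th_apply, map_X]
  simp [sp]

/-- The homogenization. -/
noncomputable def hm (j : Fin n) (E : MvPolynomial (Fin n) P) : MvPolynomial (Fin n) P :=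
  ∑ γ ∈ E.support, monomial (γ + Finsupp.single j (E.totalDegree - Finsupp.degree γ)) (coeff γ E)

lemma hm_hom (j : Fin n) (E : MvPolynomial (Fin n) P) : (hm j E).IsHomogeneous E.totalDegree := by
  classical
  refine IsHomogeneous.sum _ _ _ fun γ hγ => ?_
  apply isHomogeneous_monomial
  have h1 : Finsupp.degree γ ≤ E.totalDegree := by
    have := le_totalDegree hγ
    rw [Finsupp.degree_apply]
    exact this
  rw [map_add, Finsupp.degree_single]
  omega

lemma th_hm (E : MvPolynomial (Fin n) P) : th hP hy j (hm j E) = th hP hy j E := by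
  classical
  unfold hm
  conv_rhs => rw [← E.support_sum_monomial_coeff]
  rw [map_sum, map_sum]
  refine Finset.sum_congr rfl fun γ _ => ?_
  rw [monomial_add_single, map_mul, map_pow, th_Xj, one_pow, mul_one]

lemma ev_mono (hxy : ∀ i, x i = x j * y i) (γ : Fin n →₀ ℕ) (c : P) :
    ev P x (monomial γ c) = x j ^ Finsupp.degree γ * ev P y (monomial γ c) := by
  rw [ev_monomial, ev_monomial, Finsupp.degree_eq_sum, ← Finset.prod_pow_eq_pow_sum]
  have h1 : ∏ i, x i ^ γ i = (∏ i, x j ^ γ i) * ∏ i, y i ^ γ i := by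
    rw [← Finset.prod_mul_distrib]
    exact Finset.prod_congr rfl fun i _ => by rw [hxy i, mul_pow]
  rw [h1]
  ring

lemma ev_hm (hxy : ∀ i, x i = x j * y i) (E : MvPolynomial (Fin n) P) :
    ev P x (hm j E) = x j ^ E.totalDegree * ev P y E := by
  classical
  have h0 : ev P y E = ∑ γ ∈ E.support, ev P y (monomial γ (coeff γ E)) := by
    conv_lhs => rw [← E.support_sum_monomial_coeff]
    rw [map_sum]
  unfold hm
  rw [h0, map_sum, Finset.mul_sum]
  refine Finset.sum_congr rfl fun γ hγ => ?_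
  have h1 : Finsupp.degree γ ≤ E.totalDegree := by
    have := le_totalDegree hγ
    rw [Finsupp.degree_apply]
    exact this
  obtain ⟨s, hs⟩ := Nat.exists_eq_add_of_le h1
  rw [monomial_add_single, map_mul, map_pow, ev_X, ev_mono hxy, hs, Nat.add_sub_cancel_left,
    pow_add]
  ring

lemma ev_hom (hxy : ∀ i, x i = x j * y i) {m : ℕ} {F : MvPolynomial (Fin n) P}
    (hF : F.IsHomogeneous m) : ev P x F = x j ^ m * ev P y F := by
  classical
  conv_lhs => rw [← F.support_sum_monomial_coeff]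
  conv_rhs => rw [← F.support_sum_monomial_coeff]
  rw [map_sum, map_sum, Finset.mul_sum]
  refine Finset.sum_congr rfl fun γ hγ => ?_
  rw [ev_mono hxy, hom_degree hF (mem_support_iff.1 hγ)]

variable {k : Type v} [Field k] {ρ : P →+* k}

/-- Relations. -/
theorem th_zero (hf : Fra P ρ x) (hτ : ∀ q, ρ q = 0 → tau V hP q = 0)
    (hxy : ∀ i, x i = x j * y i) {E : MvPolynomial (Fin n) P} (h0 : ev P y E = 0) :
    th hP hy j E = 0 := by
  rw [← th_hm]
  have h1 : ev P x (hm j E) = 0 := by rw [ev_hm hxy, h0, mul_zero]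
  have h2 : Low E.totalDegree (hm j E) := fun γ hγ => le_of_eq (hom_degree (hm_hom j E) hγ).symm
  have h3 := hf.qr _ _ h2 h1
  have h4 : map (tau V hP) (hm j E) = 0 := by
    ext γ
    rw [coeff_map, coeff_zero]
    apply hτ
    by_contra hne
    have h5 : coeff γ (hm j E) ≠ 0 := fun h => hne (by rw [h, map_zero])
    have h6 := h3 γ (by rwa [coeff_map])
    rw [hom_degree (hm_hom j E) h5] at h6
    omega
  rw [th_apply, h4, map_zero]

/-- The evaluation with values in the valuation ring. -/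
lemma ev_V (hP : P ≤ V.toSubring) (hy : ∀ i, y i ∈ V) (E : MvPolynomial (Fin n) P) :
    ev P y E ∈ V := by
  have h1 := ev_mem (Q := V.toSubring) hy (map (Subring.inclusion hP) E)
  have h2 : (ev V.toSubring y).comp (map (Subring.inclusion hP)) = ev P y := by
    apply MvPolynomial.ringHom_ext
    · intro r; simp
    · intro i; simp
  have h3 := DFunLike.congr_fun h2 E
  rw [RingHom.comp_apply] at h3
  rw [← h3]
  exact h1

lemma th_const (hj : y j = 1) (E : MvPolynomial (Fin n) P) :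
    coeff 0 (th hP hy j E) = residue V ⟨ev P y E, ev_V hP hy E⟩ := by
  let e : MvPolynomial (Fin n) P →+* V :=
    { toFun := fun E => ⟨ev P y E, ev_V hP hy E⟩
      map_one' := Subtype.ext (map_one _)
      map_mul' := fun a b => Subtype.ext (map_mul _ _ _)
      map_zero' := Subtype.ext (map_zero _)
      map_add' := fun a b => Subtype.ext (map_add _ _ _) }
  have h1 : (constantCoeff.comp (th hP hy j)) = (residue V).comp e := by
    apply MvPolynomial.ringHom_ext
    · intro r
      have h2 : e (C r) = ⟨r, hP r.2⟩ := Subtype.ext (ev_C _ _ _)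
      rw [RingHom.comp_apply, RingHom.comp_apply, h2, th_apply, map_C]
      simp [sp, tau]
    · intro i
      have h2 : e (X i) = ⟨y i, hy i⟩ := Subtype.ext (ev_X _ _ _)
      rw [RingHom.comp_apply, RingHom.comp_apply, h2, th_apply, map_X]
      by_cases hi : i = j
      · subst hi
        have h3 : (⟨y i, hy i⟩ : V) = 1 := Subtype.ext hj
        rw [h3]
        simp [sp]
      · simp [sp, hi, yb]
  exact DFunLike.congr_fun h1 E

/-- Elements of order `≥ k` at the centre. -/
def Nk (hP : P ≤ V.toSubring) (hy : ∀ i, y i ∈ V) (j : Fin n) (k : ℕ) (z : K) : Prop :=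
  ∃ E D : MvPolynomial (Fin n) P, Low k (th hP hy j E) ∧ coeff 0 (th hP hy j D) ≠ 0 ∧
    z * ev P y D = ev P y E

variable {hP hy}

lemma coeff_zero_mul {L : Type v} [Field L] (A B : MvPolynomial (Fin n) L) :
    coeff 0 (A * B) = coeff 0 A * coeff 0 B := by
  have := map_mul (constantCoeff : MvPolynomial (Fin n) L →+* L) A B
  exact this

lemma Nk.add {l : ℕ} {a b : K} (ha : Nk hP hy j l a) (hb : Nk hP hy j l b) :
    Nk hP hy j l (a + b) := by
  obtain ⟨E, D, h1, h2, h3⟩ := ha
  obtain ⟨E', D', h1', h2', h3'⟩ := hb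
  refine ⟨E * D' + E' * D, D * D', ?_, ?_, ?_⟩
  · rw [map_add, map_mul, map_mul, mul_comm, mul_comm (th hP hy j E')]
    exact (h1.mul_left _).add (h1'.mul_left _)
  · rw [map_mul, coeff_zero_mul]
    exact mul_ne_zero h2 h2'
  · rw [map_mul, map_add, map_mul, map_mul, ← h3, ← h3']
    ring

lemma Nk.mul {l l' : ℕ} {a b : K} (ha : Nk hP hy j l a) (hb : Nk hP hy j l' b) :
    Nk hP hy j (l + l') (a * b) := by
  obtain ⟨E, D, h1, h2, h3⟩ := ha
  obtain ⟨E', D', h1', h2', h3'⟩ := hb
  refine ⟨E * E', D * D', ?_, ?_, ?_⟩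
  · rw [map_mul]
    exact h1.mul h1'
  · rw [map_mul, coeff_zero_mul]
    exact mul_ne_zero h2 h2'
  · rw [map_mul, map_mul, ← h3, ← h3']
    ring

lemma Nk.low (hf : Fra P ρ x) (hτ : ∀ q, ρ q = 0 → tau V hP q = 0)
    (hxy : ∀ i, x i = x j * y i) {l : ℕ} {F : MvPolynomial (Fin n) P}
    (h : Nk hP hy j l (ev P y F)) : Low l (th hP hy j F) := by
  obtain ⟨E, D, h1, h2, h3⟩ := h
  have h4 : th hP hy j (D * F - E) = 0 := by
    refine th_zero hP hy hf hτ hxy ?_
    rw [map_sub, map_mul, ← h3]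
    ring
  rw [map_sub, map_mul, sub_eq_zero] at h4
  refine Low.of_mul h2 ?_
  rw [h4]
  exact h1

end theta

section qt

variable {K : Type u} [Field K] {V : ValuationSubring K} {P : Subring K} {n : ℕ}
  {hP : P ≤ V.toSubring} {x y : Fin n → K} {hy : ∀ i, y i ∈ V} {j : Fin n}

/-- The elements of the quadratic transform. -/
lemma mem_qt (hP : P ≤ V.toSubring) (hz : Mi V.toSubring P (x j)) (hxy : ∀ i, x i = x j * y i)
    (hgen : ∀ v ∈ P, NU V.toSubring v → ∃ c : Fin n → P, v = ∑ i, (c i : K) * x i) {z : K}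
    (h : z ∈ qt V.toSubring P) :
    ∃ E D : MvPolynomial (Fin n) P, ev P y D ≠ 0 ∧ (ev P y D)⁻¹ ∈ V ∧
      z = ev P y E * (ev P y D)⁻¹ := by
  rw [qt_eq hP hz] at h
  obtain ⟨a, ha, b, hb, hb0, hbV, rfl⟩ := h
  have hcl : Subring.closure ((P : Set K) ∪ {t | ∃ v ∈ P, NU V.toSubring v ∧ t = v * (x j)⁻¹}) ≤
      (ev P y).range := by
    rw [Subring.closure_le]
    rintro t (ht | ⟨v, hv, hvn, rfl⟩)
    · exact ⟨C ⟨t, ht⟩, ev_C _ _ _⟩
    · obtain ⟨c, rfl⟩ := hgen v hv hvn
      refine ⟨∑ i, C (c i) * X i, ?_⟩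
      rw [map_sum, Finset.sum_mul]
      refine Finset.sum_congr rfl fun i _ => ?_
      rw [map_mul, ev_C, ev_X, hxy i]
      have := hz.ne
      field_simp
  obtain ⟨E, hE⟩ := hcl ha
  obtain ⟨D, hD⟩ := hcl hb
  exact ⟨E, D, by rwa [hD], by rwa [hD], by rw [hE, hD]⟩

lemma residue_ne {b : K} (hb : b ∈ V) (h0 : b ≠ 0) (hi : b⁻¹ ∈ V) :
    residue V ⟨b, hb⟩ ≠ 0 := by
  intro h
  rw [residue_eq_zero_iff, mem_maximalIdeal, mem_nonunits_iff] at h
  apply h
  rw [isUnit_iff_exists_inv]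
  exact ⟨⟨b⁻¹, hi⟩, Subtype.ext (mul_inv_cancel₀ h0)⟩

lemma residue_zero {b : K} (hb : b ∈ V) (hi : NU V.toSubring b) :
    residue V ⟨b, hb⟩ = 0 := by
  rw [residue_eq_zero_iff, mem_maximalIdeal, mem_nonunits_iff]
  intro h
  obtain ⟨c, hc⟩ := isUnit_iff_exists_inv.1 h
  have h1 : b * (c : K) = 1 := congrArg Subtype.val hc
  apply hi
  refine ⟨left_ne_zero_of_mul (by rw [h1]; exact one_ne_zero), ?_⟩
  rw [inv_eq_of_mul_eq_one_right h1]
  exact c.2

lemma nk_zero (hz : Mi V.toSubring P (x j)) (hj : y j = 1) (hxy : ∀ i, x i = x j * y i)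
    (hgen : ∀ v ∈ P, NU V.toSubring v → ∃ c : Fin n → P, v = ∑ i, (c i : K) * x i) {z : K}
    (h : z ∈ qt V.toSubring P) : Nk hP hy j 0 z := by
  obtain ⟨E, D, h1, h2, h3⟩ := mem_qt hP hz hxy hgen h
  refine ⟨E, D, low_zero _, ?_, ?_⟩
  · rw [th_const hP hy hj]
    exact residue_ne _ h1 h2
  · rw [h3, inv_mul_cancel_right₀ h1]

lemma nk_one (hz : Mi V.toSubring P (x j)) (hj : y j = 1) (hxy : ∀ i, x i = x j * y i)
    (hgen : ∀ v ∈ P, NU V.toSubring v → ∃ c : Fin n → P, v = ∑ i, (c i : K) * x i) {z : K}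
    (h : z ∈ qt V.toSubring P) (hn : NU V.toSubring z) : Nk hP hy j 1 z := by
  obtain ⟨E, D, h1, h2, h3⟩ := mem_qt hP hz hxy hgen h
  have hzV : z ∈ V := qt_le hP h
  refine ⟨E, D, ?_, ?_, ?_⟩
  · intro γ hγ
    by_contra hlt
    have h4 : Finsupp.degree γ = 0 := by omega
    rw [Finsupp.degree_eq_zero_iff] at h4
    subst h4
    apply hγ
    rw [th_const hP hy hj]
    have h5 : (⟨ev P y E, ev_V hP hy E⟩ : V) = ⟨z, hzV⟩ * ⟨ev P y D, ev_V hP hy D⟩ := by
      apply Subtype.ext
      change ev P y E = z * ev P y D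
      rw [h3, inv_mul_cancel_right₀ h1]
    rw [h5, map_mul, residue_zero hzV hn, zero_mul]
  · rw [th_const hP hy hj]
    exact residue_ne _ h1 h2
  · rw [h3, inv_mul_cancel_right₀ h1]

/-- The powers of the maximal ideal. -/
theorem nk_pow [IsLocalRing (qt V.toSubring P)] (hz : Mi V.toSubring P (x j)) (hj : y j = 1)
    (hxy : ∀ i, x i = x j * y i)
    (hgen : ∀ v ∈ P, NU V.toSubring v → ∃ c : Fin n → P, v = ∑ i, (c i : K) * x i)
    (hmax : ∀ z : qt V.toSubring P, z ∈ maximalIdeal (qt V.toSubring P) → NU V.toSubring (z : K))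
    (l : ℕ) : ∀ z : qt V.toSubring P, z ∈ maximalIdeal (qt V.toSubring P) ^ l →
      Nk hP hy j l (z : K) := by
  induction l with
  | zero => exact fun z _ => nk_zero hz hj hxy hgen z.2
  | succ l ih =>
    intro z hzm
    rw [pow_succ] at hzm
    refine Submodule.mul_induction_on hzm ?_ ?_
    · intro a ha b hb
      exact (ih a ha).mul (nk_one hz hj hxy hgen b.2 (hmax b hb))
    · intro a b ha hb
      exact ha.add hb

end qt

end Pool.Agent.Q40.SP
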